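import Pool.Agent.helper21.UB.Spec

/-!
# Module CEN of project ub: (MP_6cfeb2_co)

The centralizer of a pure quaternion.
-/

set_option autoImplicit false

open Quaternion

namespace Pool.Agent.helper21.UB

lemma CEN_of_cross (w x : ℍ[ℚ]) (h0 : w.re = 0) (a b : ℚ) (ha : x.re = a)
    (h1 : x.imI = b * w.imI) (h2 : x.imJ = b * w.imJ) (h3 : x.imK = b * w.imK) :
    x = (a : ℍ[ℚ]) + (b : ℍ[ℚ]) * w := by
  ext
  · simp [h0, ha]
  · simp [h1]
  · simp [h2]
  · simp [h3]

theorem CEN : CEN_stmt := by
  intro w x h0 hw hc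
  have e1 := congrArg QuaternionAlgebra.imI hc
  have e2 := congrArg QuaternionAlgebra.imJ hc
  have e3 := congrArg QuaternionAlgebra.imK hc
  simp only [Quaternion.imI_mul, Quaternion.imJ_mul, Quaternion.imK_mul, h0] at e1 e2 e3
  have c1 : x.imJ * w.imK = x.imK * w.imJ := by linarith
  have c2 : x.imI * w.imK = x.imK * w.imI := by linarith
  have c3 : x.imI * w.imJ = x.imJ * w.imI := by linarith
  by_cases hI : w.imI = 0
  · by_cases hJ : w.imJ = 0
    · by_cases hK : w.imK = 0
      · exact absurd (Quaternion.ext _ _ (by simpa using h0) (by simpa using hI) (by simpa using hJ) (by simpa using hK)) hw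
      · refine ⟨x.re, x.imK / w.imK, CEN_of_cross w x h0 _ _ rfl ?_ ?_ ?_⟩
        · field_simp
          linarith
        · field_simp
          linarith
        · field_simp
    · refine ⟨x.re, x.imJ / w.imJ, CEN_of_cross w x h0 _ _ rfl ?_ ?_ ?_⟩
      · field_simp
        linarith
      · field_simp
      · field_simp
        linarith
  · refine ⟨x.re, x.imI / w.imI, CEN_of_cross w x h0 _ _ rfl ?_ ?_ ?_⟩
    · field_simp
    · field_simp
      linarith
    · field_simp
      linarith

end Pool.Agent.helper21.UB
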